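import Pool.Agent.H617_HM.X5

/-!
# Weak harmonic maps of unbounded energy with an even multiple of the equator as trace

For every even `m ≥ 2` and `R = 1` there are infinitely many weak harmonic maps from the unit disc
to the unit sphere with trace `g_{1,m}`, and their energies are unbounded.
-/

set_option autoImplicit false

open MeasureTheory Filter Topology Set
open scoped ContDiff Real

namespace Pool.Agent.Results.MP_469a26_an.UnboundedEnergyEvenEquator

/-- the open unit disc `B₁` -/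
def disc : Set ℂ := Metric.ball 0 1

/-- the boundary datum `g_{R,m}` at the point with angle `θ` -/
noncomputable def datum (R : ℝ) (m : ℕ) (θ : ℝ) : Fin 3 → ℝ :=
  ![R * Real.cos (m * θ), R * Real.sin (m * θ), Real.sqrt (1 - R ^ 2)]

/-- the inverse stereographic map `π⁻¹` on `ℂ` -/
noncomputable def stereo (w : ℂ) : Fin 3 → ℝ :=
  ![2 * w.re / (1 + ‖w‖ ^ 2), 2 * w.im / (1 + ‖w‖ ^ 2), (1 - ‖w‖ ^ 2) / (1 + ‖w‖ ^ 2)]

/-- the map `u_m^+ = π⁻¹(ρ z ^ m)` -/
noncomputable def uPlus (ρ : ℝ) (m : ℕ) (z : ℂ) : Fin 3 → ℝ := stereo (ρ * z ^ m)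

/-- the map `u_m^- = π⁻¹(ρ / conj(z) ^ m)`, with value `(0, 0, -1)` at the origin -/
noncomputable def uMinus (ρ : ℝ) (m : ℕ) (z : ℂ) : Fin 3 → ℝ :=
  open scoped Classical in
  if z = 0 then ![0, 0, -1] else stereo (ρ / (starRingEnd ℂ) z ^ m)

/-- smooth functions with compact support in the open unit disc -/
def IsTest (φ : ℂ → ℝ) : Prop := ContDiff ℝ ∞ φ ∧ HasCompactSupport φ ∧ tsupport φ ⊆ disc

/-- the Laplacian -/
noncomputable def lapl (φ : ℂ → ℝ) (z : ℂ) : ℝ :=
  fderiv ℝ (fun w => fderiv ℝ φ w 1) z 1 + fderiv ℝ (fun w => fderiv ℝ φ w Complex.I) z Complex.I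

/-- `u` is a weak harmonic map from the unit disc to the unit sphere, with weak partial
derivatives `ux`, `uy` and trace `g` on the unit circle -/
structure IsHarmonicMap (g : ℝ → Fin 3 → ℝ) (u ux uy : ℂ → Fin 3 → ℝ) : Prop where
  /-- `u` and its derivatives are square integrable -/
  sq : ∀ i, MemLp (fun z => u z i) 2 (volume.restrict disc)
  sq_x : ∀ i, MemLp (fun z => ux z i) 2 (volume.restrict disc)
  sq_y : ∀ i, MemLp (fun z => uy z i) 2 (volume.restrict disc)
  /-- `ux` and `uy` are the weak partial derivatives -/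
  weak_x : ∀ i, ∀ φ, IsTest φ →
    ∫ z in disc, u z i * fderiv ℝ φ z 1 = - ∫ z in disc, ux z i * φ z
  weak_y : ∀ i, ∀ φ, IsTest φ →
    ∫ z in disc, u z i * fderiv ℝ φ z Complex.I = - ∫ z in disc, uy z i * φ z
  /-- the trace is `g`: Green's formula with all smooth functions -/
  trace_x : ∀ i, ∀ φ : ℂ → ℝ, ContDiff ℝ ∞ φ →
    ∫ z in disc, (u z i * fderiv ℝ φ z 1 + ux z i * φ z) =
      ∫ θ in (0:ℝ)..(2 * π), g θ i * φ (Complex.exp (θ * Complex.I)) * Real.cos θ
  trace_y : ∀ i, ∀ φ : ℂ → ℝ, ContDiff ℝ ∞ φ →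
    ∫ z in disc, (u z i * fderiv ℝ φ z Complex.I + uy z i * φ z) =
      ∫ θ in (0:ℝ)..(2 * π), g θ i * φ (Complex.exp (θ * Complex.I)) * Real.sin θ
  /-- `u` has values in the unit sphere -/
  sphere : ∀ᵐ z ∂(volume.restrict disc), ∑ i, u z i ^ 2 = 1
  /-- the equation `Δu + |∇u|² u = 0` in the sense of distributions -/
  eqn : ∀ i, ∀ φ, IsTest φ →
    ∫ z in disc, (u z i * lapl φ z + (∑ j, (ux z j ^ 2 + uy z j ^ 2)) * u z i * φ z) = 0

/-- the Dirichlet energy -/
noncomputable def energy (ux uy : ℂ → Fin 3 → ℝ) : ℝ :=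
  (1 / 2) * ∫ z in disc, ∑ i, (ux z i ^ 2 + uy z i ^ 2)

open Pool.Agent.H617_HM Pool.Agent.Helper985.VR in
/-- reflecting a minimizer in the upper half disc gives a weak harmonic map -/
theorem of_min {l : ℕ} {s : ℝ} {v vx vy : Fin 3 → ℂ → ℝ}
    (h : IsMin Dp cc (bb l) s v vx vy) :
    IsHarmonicMap (datum 1 (2 * l)) (fun z i => cc i + Rf v i z) (fun z i => Rx vx i z)
      (fun z i => Ry vy i z) := by
  have hA := h.adm
  have hR : ∀ i, S1 (Rf v i) (Rx vx i) (Ry vy i) := fun i => Rf_S1 (hA.s1 i)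
  have hfin : IsFiniteMeasure (volume.restrict disc) :=
    ⟨by rw [Measure.restrict_apply_univ]; exact measure_ball_lt_top⟩
  have hg : ∀ θ i, gg l θ i = datum 1 (2 * l) θ i := by
    intro θ i
    fin_cases i
    · show Real.cos (2 * l * θ) = 1 * Real.cos (((2 * l : ℕ) : ℝ) * θ)
      push_cast; ring
    · show Real.sin (2 * l * θ) = 1 * Real.sin (((2 * l : ℕ) : ℝ) * θ)
      push_cast; ring
    · show (0:ℝ) = Real.sqrt (1 - 1 ^ 2)
      norm_num
  have htr := fun (i : Fin 3) (φ : ℂ → ℝ) (hφ : ContDiff ℝ ∞ φ) => trace_all hA i hφ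
  -- test functions vanish on the circle
  have hcirc : ∀ φ, IsTest φ → ∀ θ : ℝ, φ (Complex.exp (θ * Complex.I)) = 0 := by
    intro φ hφ θ
    refine image_eq_zero_of_notMem_tsupport fun h1 => ?_
    have h2 := hφ.2.2 h1
    rw [disc, mem_ball_zero_iff, Complex.norm_exp_ofReal_mul_I] at h2
    exact lt_irrefl _ h2
  have hzero : ∀ φ, IsTest φ → ∀ z, 1 ≤ ‖z‖ → φ z = 0 := by
    intro φ hφ z hz
    refine image_eq_zero_of_notMem_tsupport fun h1 => ?_
    have h2 := hφ.2.2 h1
    rw [disc, mem_ball_zero_iff] at h2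
    linarith
  have hdx : ∀ φ, IsTest φ → ∀ w, IsTest fun z => fderiv ℝ φ z w := by
    intro φ hφ w
    refine ⟨(hφ.1.fderiv_right (m := ∞) (by simp)).clm_apply contDiff_const,
      fderiv_cc_support hφ.2.1 w, ?_⟩
    exact (tsupport_fderiv_apply_subset ℝ w).trans hφ.2.2
  have hI1 : ∀ i, IntegrableOn (fun z => cc i + Rf v i z) disc := fun i =>
    (integrable_const _).add (L2.intOn (hR i).l)
  have hmul : ∀ (f φ : ℂ → ℝ), IntegrableOn f disc → ContDiff ℝ ∞ φ → HasCompactSupport φ →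
      IntegrableOn (fun z => f z * φ z) disc := by
    intro f φ hf hφ hc
    obtain ⟨M, hM⟩ := hc.exists_bound_of_continuous hφ.continuous
    have h1 := Integrable.bdd_mul (c := M) hf hφ.continuous.aestronglyMeasurable
      (Eventually.of_forall hM)
    simpa [IntegrableOn, mul_comm] using h1
  have hwx : ∀ i, ∀ φ, IsTest φ → ∫ z in disc, (cc i + Rf v i z) * fderiv ℝ φ z 1 =
      - ∫ z in disc, Rx vx i z * φ z := by
    intro i φ hφ
    have h1 := (htr i φ hφ.1).1
    simp only [hcirc φ hφ, mul_zero, zero_mul, intervalIntegral.integral_zero] at h1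
    have i1 : IntegrableOn (fun z => (cc i + Rf v i z) * fderiv ℝ φ z 1) disc :=
      hmul _ _ (hI1 i) (hdx φ hφ 1).1 (hdx φ hφ 1).2.1
    have i2 : IntegrableOn (fun z => Rx vx i z * φ z) disc :=
      hmul _ _ (L2.intOn (hR i).lx) hφ.1 hφ.2.1
    have h2 : ∫ z in disc, ((cc i + Rf v i z) * fderiv ℝ φ z 1 + Rx vx i z * φ z) = 0 := h1
    rw [integral_add i1 i2] at h2
    linarith
  have hwy : ∀ i, ∀ φ, IsTest φ → ∫ z in disc, (cc i + Rf v i z) * fderiv ℝ φ z Complex.I =
      - ∫ z in disc, Ry vy i z * φ z := by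
    intro i φ hφ
    have h1 := (htr i φ hφ.1).2
    simp only [hcirc φ hφ, mul_zero, zero_mul, intervalIntegral.integral_zero] at h1
    have i1 : IntegrableOn (fun z => (cc i + Rf v i z) * fderiv ℝ φ z Complex.I) disc :=
      hmul _ _ (hI1 i) (hdx φ hφ _).1 (hdx φ hφ _).2.1
    have i2 : IntegrableOn (fun z => Ry vy i z * φ z) disc :=
      hmul _ _ (L2.intOn (hR i).ly) hφ.1 hφ.2.1
    have h2 : ∫ z in disc, ((cc i + Rf v i z) * fderiv ℝ φ z Complex.I + Ry vy i z * φ z) = 0 :=
      h1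
    rw [integral_add i1 i2] at h2
    linarith
  refine ⟨fun i => ?_, fun i => (hR i).lx.memLp.restrict _, fun i => (hR i).ly.memLp.restrict _,
    hwx, hwy, fun i φ hφ => ?_, fun i φ hφ => ?_, ?_, fun i φ hφ => ?_⟩
  · exact (memLp_const (cc i)).add ((hR i).l.memLp.restrict _)
  · have h1 := (htr i φ hφ).1
    simp only [hg] at h1
    exact h1
  · have h1 := (htr i φ hφ).2
    simp only [hg] at h1
    exact h1
  · rw [ae_restrict_iff' (show MeasurableSet disc from Metric.isOpen_ball.measurableSet)]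
    exact sphere_ae hA
  · -- the equation
    set ψ : Fin 3 → ℂ → ℝ := fun j => if j = i then φ else fun _ => 0 with hψ
    have hψs : ∀ j, ContDiff ℝ ∞ (ψ j) := by
      intro j
      by_cases hj : j = i
      · simp only [hψ, hj, if_true]; exact hφ.1
      · simp only [hψ, hj, if_false]; exact contDiff_const
    have hψc : ∀ j, HasCompactSupport (ψ j) := by
      intro j
      by_cases hj : j = i
      · simp only [hψ, hj, if_true]; exact hφ.2.1
      · simp only [hψ, hj, if_false]; exact HasCompactSupport.zero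
    have hψ0 : ∀ j z, 1 ≤ ‖z‖ → ψ j z = 0 := by
      intro j z hz
      by_cases hj : j = i
      · simp only [hψ, hj, if_true]; exact hzero φ hφ z hz
      · simp only [hψ, hj, if_false]
    have hw := ball_weak h hψs hψc hψ0
    have hfd : ∀ j z w, fderiv ℝ (ψ j) z w = if j = i then fderiv ℝ φ z w else 0 := by
      intro j z w
      by_cases hj : j = i
      · simp only [hψ, hj, if_true]
      · simp only [hψ, hj, if_false]; simp
    have hev : ∀ j z, ψ j z = if j = i then φ z else 0 := by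
      intro j z
      by_cases hj : j = i
      · simp only [hψ, hj, if_true]
      · simp only [hψ, hj, if_false]
    have hwI : ∀ z, wI (fun i z => cc i + Rf v i z) (Rx vx) (Ry vy) ψ
        (fun i z => fderiv ℝ (ψ i) z 1) (fun i z => fderiv ℝ (ψ i) z Complex.I) z =
        (Rx vx i z * fderiv ℝ φ z 1 + Ry vy i z * fderiv ℝ φ z Complex.I) -
          eD (Rx vx) (Ry vy) z * ((cc i + Rf v i z) * φ z) := by
      intro z
      unfold wI
      simp only [hfd, hev, mul_ite, mul_zero, Finset.sum_add_distrib, Finset.sum_ite_eq',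
        Finset.mem_univ, if_true]
    simp only [hwI] at hw
    -- integrability
    have g1 := hwx i _ (hdx φ hφ 1)
    have g2 := hwy i _ (hdx φ hφ Complex.I)
    have k1 : IntegrableOn (fun z => Rx vx i z * fderiv ℝ φ z 1) disc :=
      hmul _ _ (L2.intOn (hR i).lx) (hdx φ hφ 1).1 (hdx φ hφ 1).2.1
    have k2 : IntegrableOn (fun z => Ry vy i z * fderiv ℝ φ z Complex.I) disc :=
      hmul _ _ (L2.intOn (hR i).ly) (hdx φ hφ _).1 (hdx φ hφ _).2.1
    have k12 : IntegrableOn (fun z => Rx vx i z * fderiv ℝ φ z 1 +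
      Ry vy i z * fderiv ℝ φ z Complex.I) disc := k1.add k2
    have heI : IntegrableOn (eD (Rx vx) (Ry vy)) disc := by
      have : Integrable (eD (Rx vx) (Ry vy)) := by
        unfold eD
        exact integrable_finsetSum _ fun i _ => (hR i).lx.2.add (hR i).ly.2
      exact this.integrableOn
    have k3 : IntegrableOn (fun z => eD (Rx vx) (Ry vy) z * ((cc i + Rf v i z) * φ z)) disc := by
      have h1 : IntegrableOn (fun z => (cc i + Rf v i z) * eD (Rx vx) (Ry vy) z) disc := by
        refine Integrable.bdd_mul (c := 1) heI ((hR i).l.1.const_add _).aestronglyMeasurable ?_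
        rw [ae_restrict_iff' (show MeasurableSet disc from Metric.isOpen_ball.measurableSet)]
        filter_upwards [sphere_ae hA] with z hz hzb
        have h2 := hz hzb
        rw [Real.norm_eq_abs, abs_le_one_iff_mul_self_le_one, ← sq, ← h2]
        exact Finset.single_le_sum (f := fun i => (cc i + Rf v i z) ^ 2)
          (fun j _ => sq_nonneg _) (Finset.mem_univ i)
      refine (hmul _ _ h1 hφ.1 hφ.2.1).congr ?_
      filter_upwards with z
      ring
    have g0 : (∫ z in disc, Rx vx i z * fderiv ℝ φ z 1) +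
        (∫ z in disc, Ry vy i z * fderiv ℝ φ z Complex.I) -
        ∫ z in disc, eD (Rx vx) (Ry vy) z * ((cc i + Rf v i z) * φ z) = 0 := by
      rw [← integral_add k1 k2, ← integral_sub k12 k3]
      exact hw
    have m1 : IntegrableOn (fun z => (cc i + Rf v i z) *
        fderiv ℝ (fun w => fderiv ℝ φ w 1) z 1) disc :=
      hmul _ _ (hI1 i) (hdx _ (hdx φ hφ 1) 1).1 (hdx _ (hdx φ hφ 1) 1).2.1
    have m2 : IntegrableOn (fun z => (cc i + Rf v i z) *
        fderiv ℝ (fun w => fderiv ℝ φ w Complex.I) z Complex.I) disc :=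
      hmul _ _ (hI1 i) (hdx _ (hdx φ hφ _) _).1 (hdx _ (hdx φ hφ _) _).2.1
    have m12 : IntegrableOn (fun z => (cc i + Rf v i z) *
        fderiv ℝ (fun w => fderiv ℝ φ w 1) z 1 + (cc i + Rf v i z) *
        fderiv ℝ (fun w => fderiv ℝ φ w Complex.I) z Complex.I) disc := m1.add m2
    have e1 : ∀ z, (cc i + Rf v i z) * lapl φ z +
        (∑ j, (Rx vx j z ^ 2 + Ry vy j z ^ 2)) * (cc i + Rf v i z) * φ z =
        ((cc i + Rf v i z) * fderiv ℝ (fun w => fderiv ℝ φ w 1) z 1 + (cc i + Rf v i z) *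
        fderiv ℝ (fun w => fderiv ℝ φ w Complex.I) z Complex.I) +
          eD (Rx vx) (Ry vy) z * ((cc i + Rf v i z) * φ z) := by
      intro z
      unfold lapl eD
      ring
    simp only [e1]
    rw [integral_add m12 k3, integral_add m1 m2, g1, g2]
    linarith

open Pool.Agent.H617_HM Pool.Agent.Helper985.VR in
/-- For every even `m ≥ 2` there is a sequence of pairwise different weak harmonic maps from the
unit disc to the unit sphere with trace `g_{1,m}`, different from `u_m^+` and `u_m^-`, whose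
energies increase strictly to infinity. -/
theorem result (m : ℕ) (hm : 2 ≤ m) (he : Even m) :
    ∃ u ux uy : ℕ → ℂ → Fin 3 → ℝ,
      (∀ n, IsHarmonicMap (datum 1 m) (u n) (ux n) (uy n)) ∧
      (∀ n, energy (ux n) (uy n) < energy (ux (n + 1)) (uy (n + 1))) ∧
      Tendsto (fun n => energy (ux n) (uy n)) atTop atTop ∧
      (∀ n k, n ≠ k → ¬ (u n =ᵐ[volume.restrict disc] u k)) ∧
      (∀ n, ¬ (u n =ᵐ[volume.restrict disc] uPlus 1 m) ∧
        ¬ (u n =ᵐ[volume.restrict disc] uMinus 1 m)) := by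
  obtain ⟨l, rfl⟩ := he
  have hl : 0 < l := by omega
  obtain ⟨s, v, vx, vy, hmin, hmono, hgt⟩ := exists_seq hl
  have hen : ∀ n, energy (fun z i => Rx (vx n) i z) (fun z i => Ry (vy n) i z) =
      EN Dp (vx n) (vy n) := by
    intro n
    have h1 := energy_eq (hmin n).adm
    show (1 / 2) * (∫ z in Metric.ball (0:ℂ) 1, eD (Rx (vx n)) (Ry (vy n)) z) = _
    rw [h1]; ring
  have hne : ∀ n k, n ≠ k → ¬ ((fun (z : ℂ) (i : Fin 3) => cc i + Rf (v n) i z)
      =ᵐ[volume.restrict disc] fun z i => cc i + Rf (v k) i z) := by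
    intro n k hnk h
    have h1 : ∀ᵐ z, z ∈ Metric.ball (0:ℂ) 1 → ∀ i, cc i + Rf (v n) i z = cc i + Rf (v k) i z := by
      have h2 := (ae_restrict_iff' (Metric.isOpen_ball.measurableSet)).1 h
      filter_upwards [h2] with z hz hzb i
      exact congrFun (hz hzb) i
    exact hnk (hmono.injective (energy_unique (hmin n).adm (hmin k).adm h1))
  -- at most one member of the sequence equals a given map
  have hone : ∀ w : ℂ → Fin 3 → ℝ, ∃ N, ∀ n ≥ N,
      ¬ ((fun (z : ℂ) (i : Fin 3) => cc i + Rf (v n) i z) =ᵐ[volume.restrict disc] w) := by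
    intro w
    by_cases hw : ∃ n, (fun (z : ℂ) (i : Fin 3) => cc i + Rf (v n) i z)
        =ᵐ[volume.restrict disc] w
    · obtain ⟨n0, hn0⟩ := hw
      refine ⟨n0 + 1, fun n hn h => ?_⟩
      exact hne n n0 (by omega) (h.trans hn0.symm)
    · exact ⟨0, fun n _ h => hw ⟨n, h⟩⟩
  obtain ⟨N1, hN1⟩ := hone (uPlus 1 (l + l))
  obtain ⟨N2, hN2⟩ := hone (uMinus 1 (l + l))
  have h2l : l + l = 2 * l := by ring
  refine ⟨fun n z i => cc i + Rf (v (n + (N1 + N2))) i z,
    fun n z i => Rx (vx (n + (N1 + N2))) i z, fun n z i => Ry (vy (n + (N1 + N2))) i z,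
    fun n => ?_, fun n => ?_, ?_, fun n k hnk => hne _ _ (by omega), fun n =>
      ⟨hN1 _ (by omega), hN2 _ (by omega)⟩⟩
  · rw [h2l]; exact of_min (hmin _)
  · rw [hen, hen]; exact hmono (by omega)
  · simp only [hen]
    refine tendsto_atTop_mono (f := fun n : ℕ => (n:ℝ)) (fun n => ?_) tendsto_natCast_atTop_atTop
    have h1 := hgt (n + (N1 + N2))
    push_cast at h1
    have h3 : (0:ℝ) ≤ N1 := Nat.cast_nonneg _
    have h4 : (0:ℝ) ≤ N2 := Nat.cast_nonneg _
    linarith

end Pool.Agent.Results.MP_469a26_an.UnboundedEnergyEvenEquator
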